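import Mathlib

set_option autoImplicit false

open Set Cardinal

namespace Pool.Agent.H871R2.EL

section
variable {𝕜 : Type} [RCLike 𝕜]

theorem seminorm_cont {X : Type} [NormedAddCommGroup X] [NormedSpace 𝕜 X] (N : Seminorm 𝕜 X)
    (C : ℝ) (h : ∀ x, N x ≤ C * ‖x‖) : Continuous N := by
  have h' : ∀ x y, N x - N y ≤ C * ‖x - y‖ := by
    intro x y
    have h1 : N x ≤ N (x - y) + N y := by
      have := map_add_le_add N (x - y) y
      rwa [sub_add_cancel] at this
    linarith [h (x - y)]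
  refine LipschitzWith.continuous (K := C.toNNReal) ?_
  refine LipschitzWith.of_dist_le_mul fun x y => ?_
  have hC : C * ‖x - y‖ ≤ (C.toNNReal : ℝ) * ‖x - y‖ :=
    mul_le_mul_of_nonneg_right (Real.le_coe_toNNReal C) (norm_nonneg _)
  rw [Real.dist_eq, dist_eq_norm, abs_le]
  have h1 := h' x y
  have h2 := h' y x
  rw [norm_sub_rev] at h2
  constructor <;> linarith

theorem ext_lemma {X W : Type} [AddCommGroup X] [Module 𝕜 X] [NormedAddCommGroup W]
    [NormedSpace 𝕜 W] [CompleteSpace W] (e : X →ₗ[𝕜] W) (hd : DenseRange e) (Ψ : X →ₗ[𝕜] X)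
    (N : Seminorm 𝕜 W) (C : ℝ) (h : ∀ x, N x ≤ C * ‖x‖) (hΨ : ∀ x, ‖e (Ψ x)‖ = N (e x)) :
    ∃ T : W →L[𝕜] W, ∀ x, ‖T x‖ = N x := by
  have hT : ∀ x, (e.comp Ψ).extendOfNorm e (e x) = e (Ψ x) := by
    intro x
    refine LinearMap.extendOfNorm_eq hd ⟨C, fun y => ?_⟩ x
    rw [LinearMap.comp_apply, hΨ]
    exact h _
  refine ⟨(e.comp Ψ).extendOfNorm e, fun x => ?_⟩
  refine hd.induction_on (p := fun x => ‖(e.comp Ψ).extendOfNorm e x‖ = N x) x ?_ ?_
  · exact isClosed_eq (ContinuousLinearMap.continuous _).norm (seminorm_cont N C h)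
  · intro y
    rw [hT, hΨ]

/-- the Banach space `ℓ^∞` -/
abbrev B (𝕜 : Type) [RCLike 𝕜] : Type := BoundedContinuousFunction ℕ 𝕜

open Classical in
/-- indicator -/
noncomputable def ind (A : Set ℕ) : B 𝕜 :=
  BoundedContinuousFunction.ofNormedAddCommGroupDiscrete (fun n => if n ∈ A then (1 : 𝕜) else 0) 1
    (fun n => by split_ifs <;> simp)

theorem ind_mem (A : Set ℕ) (n : ℕ) (h : n ∈ A) : (ind A : B 𝕜) n = 1 := by
  unfold ind
  rw [BoundedContinuousFunction.coe_ofNormedAddCommGroupDiscrete, if_pos h]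

theorem ind_notMem (A : Set ℕ) (n : ℕ) (h : n ∉ A) : (ind A : B 𝕜) n = 0 := by
  unfold ind
  rw [BoundedContinuousFunction.coe_ofNormedAddCommGroupDiscrete, if_neg h]

theorem ind_dist (A A' : Set ℕ) (h : A ≠ A') : 1 ≤ dist (ind A : B 𝕜) (ind A') := by
  have h1 : ∃ n, ¬ (n ∈ A ↔ n ∈ A') := by
    by_contra h'
    push Not at h'
    exact h (Set.ext h')
  obtain ⟨n, hn⟩ := h1
  refine le_trans ?_ (BoundedContinuousFunction.dist_coe_le_dist n)
  by_cases h1 : n ∈ A
  · have h2 : n ∉ A' := fun h2 => hn ⟨fun _ => h2, fun _ => h1⟩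
    rw [ind_mem _ _ h1, ind_notMem _ _ h2, dist_zero_right, norm_one]
  · have h2 : n ∈ A' := by
      by_contra h2
      exact hn ⟨fun h => absurd h h1, fun h => absurd h h2⟩
    rw [ind_notMem _ _ h1, ind_mem _ _ h2, dist_comm, dist_zero_right, norm_one]

theorem not_sep : ¬ TopologicalSpace.SeparableSpace (B 𝕜) := by
  intro hs
  have h1 : (Set.univ : Set (Set ℕ)).Countable := by
    refine PairwiseDisjoint.countable_of_isOpen (α := B 𝕜)
      (s := fun A => Metric.ball (ind A) (1 / 2)) ?_ (fun _ _ => Metric.isOpen_ball)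
      (fun A _ => ⟨ind A, Metric.mem_ball_self (by norm_num)⟩)
    intro A _ A' _ hA
    refine Metric.ball_disjoint_ball ?_
    have := ind_dist (𝕜 := 𝕜) A A' hA
    linarith
  rw [Set.countable_univ_iff, ← mk_le_aleph0_iff, mk_set, mk_nat] at h1
  exact absurd h1 (not_le.2 (cantor ℵ₀))

theorem mk_B : #(B 𝕜) ≤ 𝔠 := by
  have h : Function.Injective fun (f : B 𝕜) (n : ℕ) => (RCLike.re (f n), RCLike.im (f n)) := by
    intro f g h
    ext n
    have := congrFun h n
    simp only [Prod.mk.injEq] at this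
    exact RCLike.ext this.1 this.2
  refine (mk_le_of_injective h).trans ?_
  rw [← power_def, ← mul_def, mk_real, mul_eq_self aleph0_le_continuum, mk_nat,
    continuum_power_aleph0]

theorem no_embedding {Γ W : Type} [NormedAddCommGroup W]
    [NormedSpace 𝕜 W] (e : (Γ →₀ 𝕜) →ₗ[𝕜] W) (hd : DenseRange e)
    (hc : ∀ F : W →L[𝕜] 𝕜, {g : Γ | F (e (Finsupp.single g 1)) ≠ 0}.Countable)
    (S : B 𝕜 →ₗ[𝕜] W) (a : ℝ) (ha : 0 < a) (hS : ∀ x, a * ‖x‖ ≤ ‖S x‖) : False := by
  -- inverse on the range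
  have hinj : Function.Injective S := by
    intro x y h
    have h1 := hS (x - y)
    rw [map_sub, h, sub_self, norm_zero] at h1
    have h2 : ‖x - y‖ ≤ 0 := by
      by_contra h2
      push Not at h2
      have := mul_pos ha h2
      linarith
    exact sub_eq_zero.1 (norm_le_zero_iff.1 h2)
  let E := LinearEquiv.ofInjective S hinj
  have hE : ∀ y : LinearMap.range S, ‖E.symm y‖ ≤ a⁻¹ * ‖y‖ := by
    intro y
    have h1 := hS (E.symm y)
    have h2 : S (E.symm y) = y := LinearEquiv.ofInjective_symm_apply S y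
    rw [h2] at h1
    rw [inv_mul_eq_div, le_div_iff₀ ha, mul_comm]
    exact h1
  -- coordinate functionals
  have hF : ∀ n : ℕ, ∃ F : W →L[𝕜] 𝕜, (∀ x : B 𝕜, F (S x) = x n) ∧ ‖F‖ ≤ a⁻¹ := by
    intro n
    let f₀ : LinearMap.range S →ₗ[𝕜] 𝕜 :=
      { toFun := fun y => (E.symm y) n
        map_add' := fun y z => by rw [map_add]; rfl
        map_smul' := fun c y => by rw [map_smul]; rfl }
    have hf₀ : ∀ y, ‖f₀ y‖ ≤ a⁻¹ * ‖y‖ := fun y =>
      (BoundedContinuousFunction.norm_coe_le_norm _ n).trans (hE y)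
    obtain ⟨F, hF1, hF2⟩ := exists_extension_norm_eq (𝕜 := 𝕜) (LinearMap.range S)
      (f₀.mkContinuous a⁻¹ hf₀)
    refine ⟨F, fun x => ?_, ?_⟩
    · have h1 := hF1 (E x)
      have h2 : ((E x : LinearMap.range S) : W) = S x := LinearEquiv.ofInjective_apply S x
      rw [h2] at h1
      rw [h1]
      show (E.symm (E x)) n = x n
      rw [E.symm_apply_apply]
    · rw [hF2]
      exact LinearMap.mkContinuous_norm_le _ (inv_pos.2 ha).le _
  choose F hF1 hF2 using hF
  -- the quotient map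
  let Q : W →ₗ[𝕜] B 𝕜 :=
    { toFun := fun w => BoundedContinuousFunction.ofNormedAddCommGroupDiscrete
        (fun n => F n w) (a⁻¹ * ‖w‖) (fun n => (F n).le_of_opNorm_le (hF2 n) w)
      map_add' := fun w w' => by ext n; exact map_add (F n) w w'
      map_smul' := fun c w => by ext n; exact map_smul (F n) c w }
  have hQ : ∀ w n, Q w n = F n w := fun w n => rfl
  have hQb : ∀ w, ‖Q w‖ ≤ a⁻¹ * ‖w‖ := fun w =>
    (BoundedContinuousFunction.norm_le (by positivity)).2
      fun n => (F n).le_of_opNorm_le (hF2 n) w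
  have hQS : ∀ x, Q (S x) = x := by
    intro x
    ext n
    rw [hQ, hF1]
  have hQc : Continuous Q := (Q.mkContinuous a⁻¹ hQb).continuous
  -- a countable set generating the range
  let Z : Set (B 𝕜) := (fun g => Q (e (Finsupp.single g 1))) ''
    (⋃ n, {g : Γ | F n (e (Finsupp.single g 1)) ≠ 0})
  have hZ : Z.Countable := (countable_iUnion fun n => hc (F n)).image _
  have hspan : ∀ x, Q (e x) ∈ Submodule.span 𝕜 Z := by
    intro x
    induction x using Finsupp.induction_linear with
    | zero => rw [map_zero, map_zero]; exact Submodule.zero_mem _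
    | add x y hx hy => rw [map_add, map_add]; exact Submodule.add_mem _ hx hy
    | single g r =>
      have h : Finsupp.single g r = r • Finsupp.single g (1 : 𝕜) := by
        rw [Finsupp.smul_single, smul_eq_mul, mul_one]
      rw [h, map_smul, map_smul]
      refine Submodule.smul_mem _ _ ?_
      by_cases hg : ∃ n, F n (e (Finsupp.single g 1)) ≠ 0
      · exact Submodule.subset_span ⟨g, mem_iUnion.2 hg, rfl⟩
      · push Not at hg
        have h0 : Q (e (Finsupp.single g 1)) = 0 := by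
          ext n
          rw [hQ, hg n]; rfl
        rw [h0]
        exact Submodule.zero_mem _
  have hcl : ∀ w, Q w ∈ closure (Submodule.span 𝕜 Z : Set (B 𝕜)) := by
    intro w
    refine hd.induction_on (p := fun w => Q w ∈ closure (Submodule.span 𝕜 Z : Set (B 𝕜))) w ?_ ?_
    · exact isClosed_closure.preimage hQc
    · intro x
      exact subset_closure (hspan x)
  have huniv : closure (Submodule.span 𝕜 Z : Set (B 𝕜)) = Set.univ := by
    refine eq_univ_of_forall fun x => ?_
    rw [← hQS x]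
    exact hcl _
  have hsep : TopologicalSpace.IsSeparable (Set.univ : Set (B 𝕜)) := by
    rw [← huniv]
    exact (hZ.isSeparable.span (R := 𝕜)).closure
  exact not_sep (TopologicalSpace.isSeparable_univ_iff.1 hsep)

/-- density character -/
noncomputable def dens (X : Type) [TopologicalSpace X] : Cardinal :=
  sInf {κ | ∃ D : Set X, Dense D ∧ #D = κ}

theorem dens_spec (X : Type) [TopologicalSpace X] : ∃ D : Set X, Dense D ∧ #D = dens X :=
  csInf_mem (s := {κ | ∃ D : Set X, Dense D ∧ #D = κ}) ⟨_, Set.univ, dense_univ, rfl⟩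

theorem dens_le {X : Type} [TopologicalSpace X] (D : Set X) (hD : Dense D) : dens X ≤ #D :=
  csInf_le' ⟨D, hD, rfl⟩

theorem le_dens_of_sep {X I : Type} [MetricSpace X] (v : I → X)
    (hv : ∀ i j, i ≠ j → 1 ≤ dist (v i) (v j)) : #I ≤ dens X := by
  obtain ⟨D, hD, hcard⟩ := dens_spec X
  rw [← hcard]
  have h : ∀ i, ∃ d ∈ D, dist (v i) d < 1 / 2 := fun i => hD.exists_dist_lt (v i) (by norm_num)
  choose d hd hd' using h
  refine mk_le_of_injective (f := fun i => (⟨d i, hd i⟩ : D)) ?_
  intro i j hij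
  by_contra hne
  have h1 : d i = d j := congrArg Subtype.val hij
  have h2 := hv i j hne
  have h3 := dist_triangle_right (v i) (v j) (d i)
  have h4 := hd' i
  have h5 := hd' j
  rw [← h1] at h5
  linarith

theorem dens_prod {X : Type} [MetricSpace X] [Nonempty X] (hX : 𝔠 ≤ dens X) :
    dens (X × B 𝕜) = dens X := by
  apply le_antisymm
  · obtain ⟨D, hD, hcard⟩ := dens_spec X
    have h1 : Dense (D ×ˢ (Set.univ : Set (B 𝕜))) := hD.prod dense_univ
    refine (dens_le _ h1).trans ?_
    have h2 : #(D ×ˢ (Set.univ : Set (B 𝕜)) : Set (X × B 𝕜)) ≤ #D * #(B 𝕜) := by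
      rw [mul_def]
      refine mk_le_of_injective (f := fun z => (⟨z.1.1, z.2.1⟩, z.1.2)) ?_
      intro z w h
      simp only [Prod.mk.injEq, Subtype.mk.injEq] at h
      exact Subtype.ext (Prod.ext h.1 h.2)
    refine h2.trans ?_
    rw [hcard]
    exact (mul_le_mul' le_rfl (mk_B.trans hX)).trans
      (mul_eq_self (aleph0_le_continuum.trans hX)).le
  · obtain ⟨D, hD, hcard⟩ := dens_spec (X × B 𝕜)
    rw [← hcard]
    have h1 : Dense (Prod.fst '' D) := by
      have : DenseRange (Prod.fst : X × B 𝕜 → X) := Prod.fst_surjective.denseRange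
      exact this.dense_image continuous_fst hD
    exact (dens_le _ h1).trans mk_image_le

end

end Pool.Agent.H871R2.EL
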