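import Mathlib

set_option autoImplicit false

open Set Cardinal

namespace Pool.Agent.H871R2.EL

/-- The sets of indices: the real numbers, then iterated power sets. -/
def L : ℕ → Type
  | 0 => ℝ
  | (n + 1) => Set (L n)

/-- all indices, graded by level -/
abbrev Kt : Type := Σ n, L n

/-- indices of level at most `n` -/
def lev (n : ℕ) : Set Kt := {k | k.1 ≤ n}

section
variable {𝕜 : Type} [RCLike 𝕜]

open Classical in
/-- restriction of a finitely supported vector to a set of coordinates -/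
noncomputable def cut {ι : Type} (A : Set ι) : (ι →₀ 𝕜) →ₗ[𝕜] (ι →₀ 𝕜) where
  toFun x := x.filter (· ∈ A)
  map_add' _ _ := Finsupp.filter_add
  map_smul' _ _ := Finsupp.filter_smul

theorem cut_apply_of_mem {ι : Type} (A : Set ι) (x : ι →₀ 𝕜) (i : ι) (h : i ∈ A) :
    cut A x i = x i := by
  classical
  exact Finsupp.filter_apply_pos _ _ h

theorem cut_apply_of_notMem {ι : Type} (A : Set ι) (x : ι →₀ 𝕜) (i : ι) (h : i ∉ A) :
    cut A x i = 0 := by
  classical
  exact Finsupp.filter_apply_neg _ _ h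

theorem cut_cut {ι : Type} (A B : Set ι) (x : ι →₀ 𝕜) : cut A (cut B x) = cut (A ∩ B) x := by
  ext i
  by_cases hA : i ∈ A
  · rw [cut_apply_of_mem _ _ _ hA]
    by_cases hB : i ∈ B
    · rw [cut_apply_of_mem _ _ _ hB, cut_apply_of_mem (A ∩ B) x i ⟨hA, hB⟩]
    · rw [cut_apply_of_notMem _ _ _ hB, cut_apply_of_notMem (A ∩ B) x i (fun h => hB h.2)]
  · rw [cut_apply_of_notMem _ _ _ hA, cut_apply_of_notMem (A ∩ B) x i (fun h => hA h.1)]

theorem cut_empty {ι : Type} (x : ι →₀ 𝕜) : cut (∅ : Set ι) x = 0 := by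
  ext i
  rw [cut_apply_of_notMem _ _ _ (notMem_empty i)]; rfl

theorem cut_of_support {ι : Type} (A : Set ι) (x : ι →₀ 𝕜) (h : ∀ i, x i ≠ 0 → i ∈ A) :
    cut A x = x := by
  ext i
  by_cases hA : i ∈ A
  · rw [cut_apply_of_mem _ _ _ hA]
  · rw [cut_apply_of_notMem _ _ _ hA]
    by_contra h'
    exact hA (h i (Ne.symm h'))

theorem cut_single_of_mem {ι : Type} (A : Set ι) (i : ι) (c : 𝕜) (h : i ∈ A) :
    cut A (Finsupp.single i c) = Finsupp.single i c := by
  classical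
  refine cut_of_support _ _ fun j hj => ?_
  rw [Finsupp.single_apply] at hj
  split_ifs at hj with h1
  · rw [← h1]; exact h
  · exact absurd rfl hj

theorem cut_single_of_notMem {ι : Type} (A : Set ι) (i : ι) (c : 𝕜) (h : i ∉ A) :
    cut A (Finsupp.single i c) = 0 := by
  classical
  ext j
  by_cases hj : j ∈ A
  · rw [cut_apply_of_mem _ _ _ hj, Finsupp.single_apply, if_neg]; · rfl
    rintro rfl; exact h hj
  · rw [cut_apply_of_notMem _ _ _ hj]; rfl

/-- every bounded linear functional has countable support -/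
def WP {ι : Type} (q : Seminorm 𝕜 (ι →₀ 𝕜)) : Prop :=
  ∀ (f : (ι →₀ 𝕜) →ₗ[𝕜] 𝕜) (C : ℝ), (∀ x, ‖f x‖ ≤ C * q x) →
    {i | f (Finsupp.single i 1) ≠ 0}.Countable

theorem WP.mono {ι : Type} {q q' : Seminorm 𝕜 (ι →₀ 𝕜)} (h : WP q) (hq : ∀ x, q' x ≤ q x) :
    WP q' := by
  intro f C hf
  refine h f |C| fun x => (hf x).trans ?_
  exact (mul_le_mul_of_nonneg_right (le_abs_self C) (apply_nonneg q' x)).trans
    (mul_le_mul_of_nonneg_left (hq x) (abs_nonneg C))

/-- the admissible seminorms -/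
structure Good (p : Seminorm 𝕜 (Kt →₀ 𝕜)) : Prop where
  proj : ∀ n x, p (cut (lev n) x) ≤ p x
  unit : ∀ k, p (Finsupp.single k 1) ≤ 1
  wp : WP p

/-- restriction of a seminorm to the levels at most `n` -/
noncomputable def cutp (n : ℕ) (p : Seminorm 𝕜 (Kt →₀ 𝕜)) : Seminorm 𝕜 (Kt →₀ 𝕜) :=
  p.comp (cut (lev n))

theorem cutp_apply (n : ℕ) (p : Seminorm 𝕜 (Kt →₀ 𝕜)) (x : Kt →₀ 𝕜) :
    cutp n p x = p (cut (lev n) x) := rfl

theorem lev_inter (n m : ℕ) : lev n ∩ lev m = lev (min n m) := by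
  ext k
  simp [lev]

theorem cutp_cutp (n m : ℕ) (p : Seminorm 𝕜 (Kt →₀ 𝕜)) :
    cutp n (cutp m p) = cutp (min m n) p := by
  ext x
  rw [cutp_apply, cutp_apply, cutp_apply, cut_cut, lev_inter]

theorem Good.cutp {p : Seminorm 𝕜 (Kt →₀ 𝕜)} (hp : Good p) (n : ℕ) : Good (cutp n p) where
  proj m x := by
    rw [cutp_apply, cutp_apply, cut_cut, inter_comm, ← cut_cut]
    exact hp.proj _ _
  unit k := by
    rw [cutp_apply]
    exact (hp.proj _ _).trans (hp.unit k)
  wp := hp.wp.mono fun x => hp.proj _ _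

/-- averaging lemma: functionals vanish on all but countably many members of a c_0-like family -/
theorem countable_of_c0 {X I : Type} [AddCommGroup X] [Module 𝕜 X] (f : X →ₗ[𝕜] 𝕜)
    (N : Seminorm 𝕜 X) (C : ℝ) (hf : ∀ x, ‖f x‖ ≤ C * N x) (v : I → X)
    (hv : ∀ (F : Finset I) (c : I → 𝕜), (∀ i, ‖c i‖ = 1) → N (∑ i ∈ F, c i • v i) ≤ 1) :
    {i | f (v i) ≠ 0}.Countable := by
  have hC : {i | f (v i) ≠ 0} = ⋃ k : ℕ, {i | 1 / ((k : ℝ) + 1) < ‖f (v i)‖} := by
    ext i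
    simp only [mem_ofPred_eq, mem_iUnion]
    constructor
    · intro h
      exact exists_nat_one_div_lt (norm_pos_iff.2 h)
    · rintro ⟨k, hk⟩ h0
      rw [h0, norm_zero] at hk
      have : (0 : ℝ) < 1 / ((k : ℝ) + 1) := by positivity
      linarith
  rw [hC]
  refine countable_iUnion fun k => Set.Finite.countable ?_
  by_contra hinf
  obtain ⟨M, hM⟩ := exists_nat_gt (|C| * ((k : ℝ) + 1))
  obtain ⟨F, hF, hcard⟩ := Set.Infinite.exists_subset_card_eq hinf M
  choose c hc1 hc2 using fun i => RCLike.exists_norm_eq_mul_self (f (v i))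
  have h1 := hf (∑ i ∈ F, c i • v i)
  have h2 : f (∑ i ∈ F, c i • v i) = ((∑ i ∈ F, ‖f (v i)‖ : ℝ) : 𝕜) := by
    rw [map_sum]
    push_cast
    refine Finset.sum_congr rfl fun i _ => ?_
    rw [map_smul, smul_eq_mul, ← hc2]
  rw [h2, RCLike.norm_ofReal] at h1
  have h3 : (M : ℝ) * (1 / ((k : ℝ) + 1)) ≤ ∑ i ∈ F, ‖f (v i)‖ := by
    calc (M : ℝ) * (1 / ((k : ℝ) + 1)) = ∑ i ∈ F, (1 / ((k : ℝ) + 1)) := by
          rw [Finset.sum_const, hcard, nsmul_eq_mul]
      _ ≤ _ := Finset.sum_le_sum fun i hi => le_of_lt (hF hi)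
  have h4 : C * N (∑ i ∈ F, c i • v i) ≤ |C| := by
    have := hv F c hc1
    calc C * N (∑ i ∈ F, c i • v i) ≤ |C| * N (∑ i ∈ F, c i • v i) :=
          mul_le_mul_of_nonneg_right (le_abs_self C) (apply_nonneg _ _)
      _ ≤ |C| * 1 := mul_le_mul_of_nonneg_left this (abs_nonneg C)
      _ = |C| := mul_one _
  have h5 : (M : ℝ) * (1 / ((k : ℝ) + 1)) ≤ |C| := h3.trans ((le_abs_self _).trans (h1.trans h4))
  rw [mul_one_div, div_le_iff₀ (by positivity)] at h5
  linarith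

end

end Pool.Agent.H871R2.EL
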