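import Mathlib
import Pool.Agent.H871R2.EL.Base

set_option autoImplicit false

open Set Cardinal

namespace Pool.Agent.H871R2.EL

section
variable {𝕜 : Type} [RCLike 𝕜]

/-- a vector space with the topology of a seminorm -/
def SN {X : Type} [AddCommGroup X] [Module 𝕜 X] (_ : Seminorm 𝕜 X) : Type := X

section SNinst
variable {X : Type} [AddCommGroup X] [Module 𝕜 X] (q : Seminorm 𝕜 X)

instance : AddCommGroup (SN q) := inferInstanceAs (AddCommGroup X)
instance : Module 𝕜 (SN q) := inferInstanceAs (Module 𝕜 X)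
instance : Norm (SN q) := ⟨fun x => q x⟩

theorem SN.core : SeminormedSpace.Core 𝕜 (SN q) where
  norm_nonneg x := apply_nonneg q x
  norm_smul c x := map_smul_eq_mul q c x
  norm_triangle x y := map_add_le_add q x y

noncomputable instance : SeminormedAddCommGroup (SN q) :=
  SeminormedAddCommGroup.ofCore (SN.core q)

noncomputable instance : NormedSpace 𝕜 (SN q) where
  norm_smul_le c x := (map_smul_eq_mul q c x).le

theorem SN.norm_def (x : SN q) : ‖x‖ = q x := rfl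

theorem hb (x : X) : ∃ f : X →ₗ[𝕜] 𝕜, (∀ y, ‖f y‖ ≤ q y) ∧ f x = (q x : 𝕜) := by
  obtain ⟨g, hg1, hg2⟩ := exists_dual_vector'' 𝕜 (E := SN q) x
  refine ⟨g.toLinearMap, fun y => ?_, hg2⟩
  have := g.le_of_opNorm_le hg1 y
  rw [one_mul] at this
  exact this

end SNinst

/-- support of a functional -/
def suppf {ι : Type} (f : (ι →₀ 𝕜) →ₗ[𝕜] 𝕜) : Set ι := {i | f (Finsupp.single i 1) ≠ 0}

theorem f_eq_zero {ι : Type} (f : (ι →₀ 𝕜) →ₗ[𝕜] 𝕜) (z : ι →₀ 𝕜)
    (h : ∀ i ∈ suppf f, z i = 0) : f z = 0 := by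
  rw [← Finsupp.sum_single z, Finsupp.sum, map_sum]
  refine Finset.sum_eq_zero fun i _ => ?_
  have h1 : Finsupp.single i (z i) = z i • Finsupp.single i (1 : 𝕜) := by
    rw [Finsupp.smul_single, smul_eq_mul, mul_one]
  rw [h1, map_smul, smul_eq_mul]
  by_cases hi : f (Finsupp.single i 1) = 0
  · rw [hi, mul_zero]
  · rw [h i hi, zero_mul]

/-- norming functional -/
noncomputable def nf {ι : Type} (q : Seminorm 𝕜 (ι →₀ 𝕜)) (y : ι →₀ 𝕜) : (ι →₀ 𝕜) →ₗ[𝕜] 𝕜 :=
  (hb q y).choose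

theorem nf_le {ι : Type} (q : Seminorm 𝕜 (ι →₀ 𝕜)) (y x : ι →₀ 𝕜) : ‖nf q y x‖ ≤ q x :=
  (hb q y).choose_spec.1 x

theorem nf_self {ι : Type} (q : Seminorm 𝕜 (ι →₀ 𝕜)) (y : ι →₀ 𝕜) : nf q y y = (q y : 𝕜) :=
  (hb q y).choose_spec.2

/-- one step of the closing-off -/
def step {ι : Type} (q : Seminorm 𝕜 (ι →₀ 𝕜)) (A : Set ι) : Set ι :=
  A ∪ ⋃ y ∈ {y : ι →₀ 𝕜 | ∀ i, y i ≠ 0 → i ∈ A}, suppf (nf q y)

theorem step_mono {ι : Type} (q : Seminorm 𝕜 (ι →₀ 𝕜)) {A B : Set ι} (h : A ⊆ B) :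
    step q A ⊆ step q B := by
  unfold step
  refine union_subset_union h ?_
  refine biUnion_subset_biUnion_left ?_
  intro y hy i hi
  exact h (hy i hi)

/-- closing-off -/
def cl {ι : Type} (q : Seminorm 𝕜 (ι →₀ 𝕜)) (A : Set ι) : Set ι := ⋃ n, (step q)^[n] A

theorem iter_mono {ι : Type} (q : Seminorm 𝕜 (ι →₀ 𝕜)) (A : Set ι) :
    Monotone fun n => (step q)^[n] A := by
  refine monotone_nat_of_le_succ fun n => ?_
  rw [Function.iterate_succ_apply']
  exact subset_union_left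

theorem subset_cl {ι : Type} (q : Seminorm 𝕜 (ι →₀ 𝕜)) (A : Set ι) : A ⊆ cl q A :=
  subset_iUnion (fun n => (step q)^[n] A) 0

theorem cl_mono {ι : Type} (q : Seminorm 𝕜 (ι →₀ 𝕜)) {A B : Set ι} (h : A ⊆ B) :
    cl q A ⊆ cl q B := by
  refine iUnion_mono fun n => ?_
  induction n with
  | zero => exact h
  | succ n ih =>
    rw [Function.iterate_succ_apply', Function.iterate_succ_apply']
    exact step_mono q ih

theorem cl_supp {ι : Type} (q : Seminorm 𝕜 (ι →₀ 𝕜)) (A : Set ι) (y : ι →₀ 𝕜)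
    (hy : ∀ i, y i ≠ 0 → i ∈ cl q A) : suppf (nf q y) ⊆ cl q A := by
  have h1 : ∃ n, ∀ i, y i ≠ 0 → i ∈ (step q)^[n] A := by
    have h2 : ∀ i, ∃ n, y i ≠ 0 → i ∈ (step q)^[n] A := by
      intro i
      by_cases hi : y i = 0
      · exact ⟨0, fun h => absurd hi h⟩
      · obtain ⟨n, hn⟩ := mem_iUnion.1 (hy i hi)
        exact ⟨n, fun _ => hn⟩
    choose m hm using h2
    refine ⟨y.support.sup m, fun i hi => ?_⟩
    exact iter_mono q A (Finset.le_sup (Finsupp.mem_support_iff.2 hi)) (hm i hi)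
  obtain ⟨n, hn⟩ := h1
  refine subset_trans ?_ (subset_iUnion (fun n => (step q)^[n] A) (n + 1))
  rw [Function.iterate_succ_apply']
  refine subset_trans ?_ subset_union_right
  exact subset_biUnion_of_mem (u := fun y => suppf (nf q y)) hn

theorem cl_proj {ι : Type} (q : Seminorm 𝕜 (ι →₀ 𝕜)) (A : Set ι) (x : ι →₀ 𝕜) :
    q (cut (cl q A) x) ≤ q x := by
  set y := cut (cl q A) x with hy
  have hys : ∀ i, y i ≠ 0 → i ∈ cl q A := by
    intro i hi
    by_contra h
    exact hi (cut_apply_of_notMem _ _ _ h)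
  have h1 := cl_supp q A y hys
  have h2 : nf q y (x - y) = 0 := by
    refine f_eq_zero _ _ fun i hi => ?_
    rw [Finsupp.sub_apply, hy, cut_apply_of_mem _ _ _ (h1 hi), sub_self]
  rw [map_sub, sub_eq_zero, nf_self] at h2
  have h3 := nf_le q y x
  rw [h2, RCLike.norm_ofReal, abs_of_nonneg (apply_nonneg q y)] at h3
  exact h3

theorem mk_field : #𝕜 ≤ 𝔠 := by
  have h : Function.Injective fun z : 𝕜 => (RCLike.re z, RCLike.im z) := by
    intro z w h
    rw [Prod.mk.injEq] at h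
    exact RCLike.ext h.1 h.2
  refine (mk_le_of_injective h).trans ?_
  rw [← mul_def, mk_real, mul_eq_self aleph0_le_continuum]

theorem union_le {α ι : Type} (f : ι → Set α) (κ : Cardinal) (hι : #ι ≤ κ)
    (hf : ∀ i, #(f i) ≤ κ) (hκ : ℵ₀ ≤ κ) : #(⋃ i, f i) ≤ κ :=
  (mk_iUnion_le f).trans ((mul_le_mul' hι (ciSup_le' hf)).trans (mul_eq_self hκ).le)

theorem mk_supp {ι : Type} (A : Set ι) (κ : Cardinal) (hκ : 𝔠 ≤ κ) (hA : #A ≤ κ) :
    #{y : ι →₀ 𝕜 | ∀ i, y i ≠ 0 → i ∈ A} ≤ κ := by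
  classical
  have h1 : #(A →₀ 𝕜) ≤ κ := by
    rcases isEmpty_or_nonempty A with h | h
    · rw [mk_eq_one]
      exact (one_le_aleph0.trans aleph0_le_continuum).trans hκ
    · rw [mk_finsupp_of_infinite']
      exact max_le hA (mk_field.trans hκ)
  refine le_trans ?_ h1
  have h2 : Function.Injective fun y : {y : ι →₀ 𝕜 | ∀ i, y i ≠ 0 → i ∈ A} =>
      Finsupp.subtypeDomain (· ∈ A) y.1 := by
    intro y z h
    apply Subtype.ext
    ext i
    by_cases hi : i ∈ A
    · exact DFunLike.congr_fun h ⟨i, hi⟩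
    · have h3 : y.1 i = 0 := by
        by_contra h'
        exact hi (y.2 i h')
      have h4 : z.1 i = 0 := by
        by_contra h'
        exact hi (z.2 i h')
      rw [h3, h4]
  exact mk_le_of_injective h2

theorem mk_cl {ι : Type} (q : Seminorm 𝕜 (ι →₀ 𝕜)) (hq : WP q) (A : Set ι) (κ : Cardinal)
    (hκ : 𝔠 ≤ κ) (hA : #A ≤ κ) : #(cl q A) ≤ κ := by
  have hκ0 : ℵ₀ ≤ κ := aleph0_le_continuum.trans hκ
  refine union_le _ κ (by rw [mk_nat]; exact hκ0) (fun n => ?_) hκ0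
  induction n with
  | zero => exact hA
  | succ n ih =>
    rw [Function.iterate_succ_apply']
    unfold step
    refine (mk_union_le _ _).trans ?_
    refine (add_le_add ih ?_).trans (add_eq_self hκ0).le
    rw [biUnion_eq_iUnion]
    refine union_le _ κ (mk_supp _ κ hκ ih) (fun y => ?_) hκ0
    have : (suppf (nf q y.1)).Countable := hq _ 1 fun x => by
      rw [one_mul]; exact nf_le q _ x
    exact (le_aleph0_iff_set_countable.2 this).trans hκ0

theorem cont_le_L (n : ℕ) : 𝔠 ≤ #(L n) := by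
  induction n with
  | zero => exact mk_real.symm.le
  | succ n ih =>
    show 𝔠 ≤ #(Set (L n))
    rw [mk_set]
    exact ih.trans (cantor _).le

theorem mk_L_succ (n : ℕ) : #(L (n + 1)) = 2 ^ #(L n) := mk_set

theorem mk_L_le (n : ℕ) : #(L n) ≤ #(L (n + 1)) := by
  rw [mk_L_succ]; exact (cantor _).le

theorem mk_lev (n : ℕ) : #(lev n) ≤ #(L n) := by
  induction n with
  | zero =>
    have h : lev 0 ⊆ range (fun l : L 0 => (⟨0, l⟩ : Kt)) := by
      rintro ⟨m, l⟩ hk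
      have hm : m = 0 := Nat.le_zero.1 hk
      subst hm
      exact ⟨l, rfl⟩
    exact (mk_le_mk_of_subset h).trans mk_range_le
  | succ n ih =>
    have h : lev (n + 1) ⊆ lev n ∪ range (fun l : L (n + 1) => (⟨n + 1, l⟩ : Kt)) := by
      rintro ⟨m, l⟩ hk
      have hk' : m ≤ n + 1 := hk
      rcases Nat.lt_or_ge n m with hm | hm
      · have hm' : m = n + 1 := le_antisymm hk' hm
        subst hm'
        exact Or.inr ⟨l, rfl⟩
      · exact Or.inl hm
    refine (mk_le_mk_of_subset h).trans ((mk_union_le _ _).trans ?_)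
    refine (add_le_add (ih.trans (mk_L_le n)) mk_range_le).trans ?_
    exact (add_eq_self (aleph0_le_continuum.trans (cont_le_L _))).le

end

end Pool.Agent.H871R2.EL
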