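import Mathlib
import Pool.Agent.H871R2.EL.Base

set_option autoImplicit false

open Set Cardinal

namespace Pool.Agent.H871R2.EL

/-- index set of the universal space: a truncated admissible seminorm with an index of its level -/
def G (𝕜 : Type) [RCLike 𝕜] : Type :=
  {g : Seminorm 𝕜 (Kt →₀ 𝕜) × Kt // Good g.1 ∧ cutp g.2.1 g.1 = g.1}

section
variable {𝕜 : Type} [RCLike 𝕜]

open Classical in
/-- reading a vector along the branch of an admissible seminorm -/
noncomputable def R (p : Seminorm 𝕜 (Kt →₀ 𝕜)) : (G 𝕜 →₀ 𝕜) →ₗ[𝕜] (Kt →₀ 𝕜) :=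
  Finsupp.linearCombination 𝕜 fun g =>
    if cutp g.1.2.1 p = g.1.1 then Finsupp.single g.1.2 1 else 0

open Classical in
theorem R_single (p : Seminorm 𝕜 (Kt →₀ 𝕜)) (g : G 𝕜) :
    R p (Finsupp.single g 1) = if cutp g.1.2.1 p = g.1.1 then Finsupp.single g.1.2 1 else 0 := by
  unfold R
  rw [Finsupp.linearCombination_single, one_smul]

theorem R_single_le (p : Seminorm 𝕜 (Kt →₀ 𝕜)) (hp : Good p) (g : G 𝕜) :
    p (R p (Finsupp.single g 1)) ≤ 1 := by
  classical
  rw [R_single]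
  split_ifs
  · exact hp.unit _
  · rw [map_zero]; exact zero_le_one

theorem good_zero : Good (0 : Seminorm 𝕜 (Kt →₀ 𝕜)) where
  proj n x := le_rfl
  unit k := zero_le_one
  wp := by
    intro f C hf
    have : {i | f (Finsupp.single i 1) ≠ 0} = ∅ := by
      ext i
      simp only [mem_ofPred_eq, mem_empty_iff_false, iff_false, not_not]
      have := hf (Finsupp.single i 1)
      rw [zero_apply, mul_zero] at this
      exact norm_le_zero_iff.1 this
    rw [this]
    exact countable_empty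

instance : Nonempty {p : Seminorm 𝕜 (Kt →₀ 𝕜) // Good p} := ⟨⟨0, good_zero⟩⟩

theorem bdd (x : G 𝕜 →₀ 𝕜) :
    ∃ B : ℝ, ∀ p : Seminorm 𝕜 (Kt →₀ 𝕜), Good p → p (R p x) ≤ B := by
  induction x using Finsupp.induction_linear with
  | zero => exact ⟨0, fun p _ => by rw [map_zero, map_zero]⟩
  | add x y hx hy =>
    obtain ⟨B, hB⟩ := hx
    obtain ⟨B', hB'⟩ := hy
    refine ⟨B + B', fun p hp => ?_⟩
    rw [map_add]
    exact (map_add_le_add p _ _).trans (add_le_add (hB p hp) (hB' p hp))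
  | single g r =>
    refine ⟨‖r‖, fun p hp => ?_⟩
    have h : Finsupp.single g r = r • Finsupp.single g (1 : 𝕜) := by
      rw [Finsupp.smul_single, smul_eq_mul, mul_one]
    rw [h, map_smul, map_smul_eq_mul]
    exact mul_le_of_le_one_right (norm_nonneg r) (R_single_le p hp g)

/-- the seminorm of the universal space -/
noncomputable def NN : Seminorm 𝕜 (G 𝕜 →₀ 𝕜) :=
  ⨆ p : {p : Seminorm 𝕜 (Kt →₀ 𝕜) // Good p}, p.1.comp (R p.1)

theorem bdd' : BddAbove (range fun p : {p : Seminorm 𝕜 (Kt →₀ 𝕜) // Good p} =>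
    p.1.comp (R p.1)) := by
  rw [Seminorm.bddAbove_range_iff]
  intro x
  obtain ⟨B, hB⟩ := bdd x
  refine ⟨B, ?_⟩
  rintro _ ⟨p, rfl⟩
  exact hB p.1 p.2

theorem NN_apply (x : G 𝕜 →₀ 𝕜) :
    NN x = ⨆ p : {p : Seminorm 𝕜 (Kt →₀ 𝕜) // Good p}, p.1 (R p.1 x) := by
  unfold NN
  rw [Seminorm.iSup_apply bdd']
  rfl

theorem NN_le {x : G 𝕜 →₀ 𝕜} {a : ℝ} (h : ∀ p, Good p → p (R p x) ≤ a) : NN x ≤ a := by
  rw [NN_apply]
  exact ciSup_le fun p => h p.1 p.2

theorem le_NN (x : G 𝕜 →₀ 𝕜) (p : Seminorm 𝕜 (Kt →₀ 𝕜)) (hp : Good p) : p (R p x) ≤ NN x := by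
  rw [NN_apply]
  obtain ⟨B, hB⟩ := bdd x
  refine le_ciSup (f := fun p : {p : Seminorm 𝕜 (Kt →₀ 𝕜) // Good p} => p.1 (R p.1 x)) ?_ ⟨p, hp⟩
  refine ⟨B, ?_⟩
  rintro _ ⟨p, rfl⟩
  exact hB p.1 p.2

theorem NN_single (g : G 𝕜) : NN (Finsupp.single g (1 : 𝕜)) ≤ 1 :=
  NN_le fun p hp => R_single_le p hp g

/-- the index above `k` on the branch of `p` -/
noncomputable def br (p : Seminorm 𝕜 (Kt →₀ 𝕜)) (hp : Good p) (k : Kt) : G 𝕜 :=
  ⟨(cutp k.1 p, k), hp.cutp _, by
    show cutp k.1 (cutp k.1 p) = cutp k.1 p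
    rw [cutp_cutp, min_self]⟩

/-- the embedding along a branch -/
noncomputable def J (p : Seminorm 𝕜 (Kt →₀ 𝕜)) (hp : Good p) : (Kt →₀ 𝕜) →ₗ[𝕜] (G 𝕜 →₀ 𝕜) :=
  Finsupp.linearCombination 𝕜 fun k => Finsupp.single (br p hp k) 1

theorem J_single (p : Seminorm 𝕜 (Kt →₀ 𝕜)) (hp : Good p) (k : Kt) :
    J p hp (Finsupp.single k 1) = Finsupp.single (br p hp k) 1 := by
  unfold J
  rw [Finsupp.linearCombination_single, one_smul]

theorem R_J (p : Seminorm 𝕜 (Kt →₀ 𝕜)) (hp : Good p) (p' : Seminorm 𝕜 (Kt →₀ 𝕜))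
    (x : Kt →₀ 𝕜) : R p' (J p hp x) = cut {k | cutp k.1 p' = cutp k.1 p} x := by
  classical
  have h : (R p').comp (J p hp) = cut {k | cutp k.1 p' = cutp k.1 p} := by
    apply Finsupp.lhom_ext'
    intro k
    apply LinearMap.ext_ring
    show R p' (J p hp (Finsupp.single k 1)) = cut _ (Finsupp.single k 1)
    rw [J_single, R_single]
    show (if cutp k.1 p' = cutp k.1 p then Finsupp.single k 1 else 0) = _
    split_ifs with h
    · rw [cut_single_of_mem _ _ _ (show k ∈ {k : Kt | cutp k.1 p' = cutp k.1 p} from h)]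
    · rw [cut_single_of_notMem _ _ _ (show k ∉ {k : Kt | cutp k.1 p' = cutp k.1 p} from h)]
  exact congrArg (fun T => T x) h

theorem exists_level (x : Kt →₀ 𝕜) : ∃ M, ∀ k, x k ≠ 0 → k ∈ lev M := by
  refine ⟨x.support.sup fun k => k.1, fun k hk => ?_⟩
  exact Finset.le_sup (f := fun k : Kt => k.1) (Finsupp.mem_support_iff.2 hk)

theorem J_aux (p : Seminorm 𝕜 (Kt →₀ 𝕜)) (hp : Good p) (p' : Seminorm 𝕜 (Kt →₀ 𝕜))
    (x : Kt →₀ 𝕜) (M : ℕ) :
    p' (cut ({k | cutp k.1 p' = cutp k.1 p} ∩ lev M) x) ≤ p x := by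
  have key : ∀ m, cutp m p' = cutp m p →
      {k : Kt | cutp k.1 p' = cutp k.1 p} ∩ lev m = lev m := by
    intro m hm
    rw [inter_eq_right]
    intro k hk
    show cutp k.1 p' = cutp k.1 p
    have h1 : min m k.1 = k.1 := min_eq_right hk
    have h2 := congrArg (cutp k.1) hm
    rw [cutp_cutp, cutp_cutp, h1] at h2
    exact h2
  induction M with
  | zero =>
    by_cases h : cutp 0 p' = cutp 0 p
    · rw [key 0 h]
      show cutp 0 p' x ≤ p x
      rw [h]
      exact hp.proj _ _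
    · have : {k : Kt | cutp k.1 p' = cutp k.1 p} ∩ lev 0 = ∅ := by
        ext k
        simp only [mem_inter_iff, mem_empty_iff_false, iff_false, not_and]
        intro h1 h2
        have h3 : k.1 = 0 := Nat.le_zero.1 h2
        have h4 : cutp k.1 p' = cutp k.1 p := h1
        rw [h3] at h4
        exact h h4
      rw [this, cut_empty, map_zero]
      exact apply_nonneg _ _
  | succ M ih =>
    by_cases h : cutp (M + 1) p' = cutp (M + 1) p
    · rw [key _ h]
      show cutp (M + 1) p' x ≤ p x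
      rw [h]
      exact hp.proj _ _
    · have : {k : Kt | cutp k.1 p' = cutp k.1 p} ∩ lev (M + 1) =
          {k : Kt | cutp k.1 p' = cutp k.1 p} ∩ lev M := by
        ext k
        constructor
        · rintro ⟨h1, h2⟩
          refine ⟨h1, ?_⟩
          rcases Nat.lt_or_ge M k.1 with h3 | h3
          · exfalso
            have h2' : k.1 ≤ M + 1 := h2
            have h4 : k.1 = M + 1 := le_antisymm h2' h3
            have h5 : cutp k.1 p' = cutp k.1 p := h1
            rw [h4] at h5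
            exact h h5
          · exact h3
        · rintro ⟨h1, h2⟩
          exact ⟨h1, Nat.le_succ_of_le h2⟩
      rw [this]
      exact ih

/-- members of the same level behave like the basis of `c_0` -/
theorem NN_level (n : ℕ) {I : Type} (v : I → G 𝕜) (hn : ∀ i, (v i).1.2.1 = n)
    (hinj : ∀ i j, (v i).1.1 = (v j).1.1 → i = j) (F : Finset I) (c : I → 𝕜)
    (hc : ∀ i, ‖c i‖ = 1) : NN (∑ i ∈ F, c i • Finsupp.single (v i) (1 : 𝕜)) ≤ 1 := by
  classical
  apply NN_le
  intro p hp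
  rw [map_sum]
  by_cases h : ∃ i ∈ F, cutp n p = (v i).1.1
  · obtain ⟨i, hi, h⟩ := h
    rw [Finset.sum_eq_single i]
    · rw [map_smul, map_smul_eq_mul, hc, one_mul]
      exact R_single_le p hp _
    · intro j _ hji
      rw [map_smul, R_single, if_neg, smul_zero]
      rw [hn j]
      intro h'
      exact hji (hinj _ _ (h'.symm.trans h))
    · intro h'
      exact absurd hi h'
  · rw [Finset.sum_eq_zero]
    · rw [map_zero]; exact zero_le_one
    · intro i hi
      rw [map_smul, R_single, if_neg, smul_zero]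
      rw [hn i]
      intro h'
      exact h ⟨i, hi, h'⟩

theorem NN_J (p : Seminorm 𝕜 (Kt →₀ 𝕜)) (hp : Good p) (x : Kt →₀ 𝕜) : NN (J p hp x) = p x := by
  apply le_antisymm
  · apply NN_le
    intro p' _
    obtain ⟨M, hM⟩ := exists_level x
    rw [R_J]
    have h1 : cut {k | cutp k.1 p' = cutp k.1 p} x =
        cut ({k | cutp k.1 p' = cutp k.1 p} ∩ lev M) x := by
      rw [← cut_cut, cut_of_support (lev M) x hM]
    rw [h1]
    exact J_aux p hp p' x M
  · have h1 := le_NN (J p hp x) p hp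
    rw [R_J] at h1
    have h2 : cut {k : Kt | cutp k.1 p = cutp k.1 p} x = x :=
      cut_of_support _ _ fun _ _ => rfl
    rwa [h2] at h1

/-- bounded functionals on the universal space have countable support -/
theorem WP_NN : WP (NN : Seminorm 𝕜 (G 𝕜 →₀ 𝕜)) := by
  intro f C hf
  -- the seminorms of level `n` which matter
  let S : ℕ → Set (Seminorm 𝕜 (Kt →₀ 𝕜)) := fun n =>
    {s | ∃ g : G 𝕜, g.1.1 = s ∧ g.1.2.1 = n ∧ f (Finsupp.single g 1) ≠ 0}
  have hS : ∀ n, (S n).Countable := by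
    intro n
    choose v hv1 hv2 hv3 using fun s : S n => s.2
    have h1 := countable_of_c0 f NN C hf (fun s : S n => Finsupp.single (v s) (1 : 𝕜))
      (fun F c hc => NN_level n v hv2 (fun i j h => by
        apply Subtype.ext
        rw [← hv1 i, ← hv1 j, h]) F c hc)
    have h2 : {s : S n | f (Finsupp.single (v s) (1 : 𝕜)) ≠ 0} = Set.univ :=
      eq_univ_of_forall hv3
    rw [h2] at h1
    exact Set.countable_univ_iff.1 h1
  have hsub : {g : G 𝕜 | f (Finsupp.single g 1) ≠ 0} ⊆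
      ⋃ n, ⋃ s ∈ S n, {g : G 𝕜 | g.1.1 = s ∧ g.1.2.1 = n ∧ f (Finsupp.single g 1) ≠ 0} := by
    intro g hg
    simp only [mem_iUnion]
    exact ⟨g.1.2.1, g.1.1, ⟨g, rfl, rfl, hg⟩, rfl, rfl, hg⟩
  refine Countable.mono hsub ?_
  refine countable_iUnion fun n => (hS n).biUnion fun s hs => ?_
  obtain ⟨g₀, rfl, hg₀, -⟩ := hs
  set s := g₀.1.1 with hs
  have hgood : Good s := g₀.2.1
  have hcut : cutp n s = s := by
    have := g₀.2.2
    rw [hg₀] at this
    exact this
  have hw := hgood.wp (f.comp (J s hgood)) C (fun x => by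
    have := hf (J s hgood x)
    rw [NN_J] at this
    exact this)
  have hmap : MapsTo (fun g : G 𝕜 => g.1.2)
      {g : G 𝕜 | g.1.1 = s ∧ g.1.2.1 = n ∧ f (Finsupp.single g 1) ≠ 0}
      {k | (f.comp (J s hgood)) (Finsupp.single k 1) ≠ 0} := by
    rintro g ⟨h1, h2, h3⟩
    show f (J s hgood (Finsupp.single g.1.2 1)) ≠ 0
    rw [J_single]
    have h4 : br s hgood g.1.2 = g := by
      apply Subtype.ext
      apply Prod.ext
      · show cutp g.1.2.1 s = g.1.1
        rw [h2, hcut, h1]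
      · rfl
    rw [h4]
    exact h3
  refine hmap.countable_of_injOn ?_ hw
  rintro g ⟨h1, -, -⟩ g' ⟨h1', -, -⟩ h
  apply Subtype.ext
  exact Prod.ext (h1.trans h1'.symm) h

end

end Pool.Agent.H871R2.EL
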