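import Mathlib
import Pool.Agent.H871R2.EL.Space
import Pool.Agent.H871R2.EL.Closing

set_option autoImplicit false

open Set Cardinal

namespace Pool.Agent.H871R2.EL

section
variable {𝕜 : Type} [RCLike 𝕜]

/-- the part of the index set of level at most `k` -/
def GLv (k : ℕ) : Set (G 𝕜) := {g | g.1.2 ∈ lev k}

theorem mk_GLv (k : ℕ) : #(GLv (𝕜 := 𝕜) k) ≤ #(L (k + 1)) := by
  let Y : Type := {x : Kt →₀ 𝕜 | ∀ i, x i ≠ 0 → i ∈ lev k}
  have hY : #Y ≤ #(L k) := mk_supp _ _ (cont_le_L k) (mk_lev k)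
  let Φ : GLv (𝕜 := 𝕜) k → (Y → ℝ) × lev k := fun g => (fun x => g.1.1.1 x.1, ⟨g.1.1.2, g.2⟩)
  have hΦ : Function.Injective Φ := by
    intro g g' h
    have h2 : g.1.1.2 = g'.1.1.2 := congrArg (fun z => z.2.1) h
    apply Subtype.ext
    apply Subtype.ext
    refine Prod.ext ?_ h2
    ext x
    have e1 : g.1.1.1 x = g.1.1.1 (cut (lev k) x) := by
      have h3 : g.1.1.2.1 ≤ k := g.2
      conv_lhs => rw [← g.1.2.2]
      conv_rhs => rw [← g.1.2.2]
      rw [cutp_apply, cutp_apply, cut_cut, lev_inter, min_eq_left h3]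
    have e2 : g'.1.1.1 x = g'.1.1.1 (cut (lev k) x) := by
      have h3 : g'.1.1.2.1 ≤ k := g'.2
      conv_lhs => rw [← g'.1.2.2]
      conv_rhs => rw [← g'.1.2.2]
      rw [cutp_apply, cutp_apply, cut_cut, lev_inter, min_eq_left h3]
    rw [e1, e2]
    have hx : ∀ i, cut (lev k) x i ≠ 0 → i ∈ lev k := by
      intro i hi
      by_contra h'
      exact hi (cut_apply_of_notMem _ _ _ h')
    exact congrArg (fun z => z.1 ⟨cut (lev k) x, hx⟩) h
  refine (mk_le_of_injective hΦ).trans ?_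
  rw [← mul_def]
  have hL0 : ℵ₀ ≤ #(L k) := aleph0_le_continuum.trans (cont_le_L k)
  have h1 : #(Y → ℝ) ≤ #(L (k + 1)) := by
    rw [← power_def, mk_real, mk_L_succ, ← two_power_aleph0, ← power_mul]
    refine power_le_power_left two_ne_zero ?_
    exact (mul_le_mul' hL0 hY).trans (mul_eq_self hL0).le
  refine (mul_le_mul' h1 ((mk_lev k).trans (mk_L_le k))).trans ?_
  exact (mul_eq_self (aleph0_le_continuum.trans (cont_le_L _))).le

/-- every seminorm dominated by the universal one is realised inside the universal space -/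
theorem exists_embed (q : Seminorm 𝕜 (G 𝕜 →₀ 𝕜)) (C : ℝ) (hC : 0 < C)
    (hq : ∀ x, q x ≤ C * NN x) :
    ∃ Ψ : (G 𝕜 →₀ 𝕜) →ₗ[𝕜] (G 𝕜 →₀ 𝕜), ∀ x, NN (Ψ x) = q x := by
  classical
  have hWq : WP q := by
    intro f C' hf
    refine WP_NN f (|C'| * C) fun x => (hf x).trans ?_
    calc C' * q x ≤ |C'| * q x := mul_le_mul_of_nonneg_right (le_abs_self _) (apply_nonneg _ _)
      _ ≤ |C'| * (C * NN x) := mul_le_mul_of_nonneg_left (hq x) (abs_nonneg _)
      _ = |C'| * C * NN x := by ring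
  -- the filtration
  let A : ℕ → Set (G 𝕜) := fun k => Nat.rec ∅ (fun k _ => cl q (GLv k)) k
  have hA0 : A 0 = ∅ := rfl
  have hAs : ∀ k, A (k + 1) = cl q (GLv k) := fun k => rfl
  have hAmono : Monotone A := by
    refine monotone_nat_of_le_succ fun k => ?_
    cases k with
    | zero => rw [hA0]; exact empty_subset _
    | succ k =>
      rw [hAs, hAs]
      refine cl_mono q fun g hg => ?_
      exact Nat.le_succ_of_le hg
  have hAcard : ∀ k : ℕ, #(↥(A k)) ≤ #(L k) := by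
    intro k
    cases k with
    | zero => rw [hA0, Cardinal.mk_eq_zero]; exact zero_le
    | succ k => rw [hAs]; exact mk_cl q hWq _ _ (cont_le_L _) (mk_GLv k)
  have hAcover : ∀ g, ∃ k, g ∈ A k := by
    intro g
    refine ⟨g.1.2.1 + 1, ?_⟩
    rw [hAs]
    exact subset_cl q _ (le_refl g.1.2.1)
  have hAproj : ∀ k x, q (cut (A k) x) ≤ q x := by
    intro k x
    cases k with
    | zero => rw [hA0, cut_empty, map_zero]; exact apply_nonneg _ _
    | succ k => rw [hAs]; exact cl_proj q _ x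
  -- the injection
  have hex : ∀ k, ∃ e : ↥(A k) → L k, Function.Injective e := by
    intro k
    obtain ⟨e⟩ := (Cardinal.le_def _ _).1 (hAcard k)
    exact ⟨e, e.injective⟩
  choose ι hι using hex
  let lv : G 𝕜 → ℕ := fun g => sInf {k | g ∈ A k}
  have hlv : ∀ g, g ∈ A (lv g) := fun g => Nat.sInf_mem (s := {k | g ∈ A k}) (hAcover g)
  have hlv' : ∀ g k, lv g ≤ k ↔ g ∈ A k := by
    intro g k
    constructor
    · intro h
      exact hAmono h (hlv g)
    · intro h
      exact Nat.sInf_le (s := {k | g ∈ A k}) h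
  let φ : G 𝕜 → Kt := fun g => ⟨lv g, ι (lv g) ⟨g, hlv g⟩⟩
  have hφ : Function.Injective φ := by
    have key : ∀ (m : ℕ) (g : G 𝕜) (hg : g ∈ A m) (m' : ℕ) (g' : G 𝕜) (hg' : g' ∈ A m'),
        (⟨m, ι m ⟨g, hg⟩⟩ : Kt) = ⟨m', ι m' ⟨g', hg'⟩⟩ → g = g' := by
      intro m g hg m' g' hg' h
      rw [Sigma.mk.injEq] at h
      obtain ⟨rfl, h⟩ := h
      have := hι m (eq_of_heq h)
      exact congrArg Subtype.val this
    intro g g' h
    exact key _ _ _ _ _ _ h
  have hφlev : ∀ g k, φ g ∈ lev k ↔ g ∈ A k := fun g k => hlv' g k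
  -- transport
  let co : (Kt →₀ 𝕜) →ₗ[𝕜] (G 𝕜 →₀ 𝕜) := Finsupp.lcomapDomain φ hφ
  have hco : ∀ x g, co x g = x (φ g) := fun x g => rfl
  let mp : (G 𝕜 →₀ 𝕜) →ₗ[𝕜] (Kt →₀ 𝕜) := Finsupp.lmapDomain 𝕜 𝕜 φ
  have hmp : ∀ x g, mp x (φ g) = x g := fun x g => Finsupp.mapDomain_apply hφ x g
  have hcomp : ∀ x, co (mp x) = x := by
    intro x
    ext g
    rw [hco, hmp]
  have hmp1 : ∀ g, mp (Finsupp.single g 1) = Finsupp.single (φ g) 1 := fun g =>
    Finsupp.mapDomain_single
  have hco1 : ∀ g, co (Finsupp.single (φ g) 1) = Finsupp.single g 1 := by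
    intro g
    rw [← hmp1, hcomp]
  have hco0 : ∀ k, k ∉ range φ → co (Finsupp.single k 1) = 0 := by
    intro k hk
    ext g
    rw [hco, Finsupp.single_apply, if_neg]
    · rfl
    · rintro rfl
      exact hk ⟨g, rfl⟩
  have hcut : ∀ n x, co (cut (lev n) x) = cut (A n) (co x) := by
    intro n x
    ext g
    rcases Classical.em (g ∈ A n) with h | h
    · rw [cut_apply_of_mem _ _ _ h, hco, hco, cut_apply_of_mem _ _ _ ((hφlev g n).2 h)]
    · rw [cut_apply_of_notMem _ _ _ h, hco,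
        cut_apply_of_notMem _ _ _ (fun h' => h ((hφlev g n).1 h'))]
  let p : Seminorm 𝕜 (Kt →₀ 𝕜) := q.comp (((C⁻¹ : ℝ) : 𝕜) • co)
  have hp : ∀ x, p x = C⁻¹ * q (co x) := by
    intro x
    show q ((((C⁻¹ : ℝ) : 𝕜) • co) x) = _
    rw [LinearMap.smul_apply, map_smul_eq_mul, RCLike.norm_ofReal, abs_of_pos (inv_pos.2 hC)]
  have hgood : Good p := by
    refine ⟨fun n x => ?_, fun k => ?_, ?_⟩
    · rw [hp, hp, hcut]
      exact mul_le_mul_of_nonneg_left (hAproj n _) (inv_pos.2 hC).le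
    · rw [hp]
      by_cases hk : k ∈ range φ
      · obtain ⟨g, rfl⟩ := hk
        rw [hco1]
        calc C⁻¹ * q (Finsupp.single g 1) ≤ C⁻¹ * (C * NN (Finsupp.single g (1 : 𝕜))) :=
              mul_le_mul_of_nonneg_left (hq _) (inv_pos.2 hC).le
          _ = NN (Finsupp.single g (1 : 𝕜)) := by field_simp
          _ ≤ 1 := NN_single g
      · rw [hco0 k hk, map_zero, mul_zero]
        exact zero_le_one
    · intro h C' hh
      have h1 : {g : G 𝕜 | (h.comp mp) (Finsupp.single g 1) ≠ 0}.Countable := by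
        refine hWq _ (C' * C⁻¹) fun x => ?_
        have := hh (mp x)
        rw [hp, hcomp] at this
        rw [mul_assoc]
        exact this
      refine (h1.image φ).mono ?_
      intro k hk
      by_cases hk' : k ∈ range φ
      · obtain ⟨g, rfl⟩ := hk'
        refine ⟨g, ?_, rfl⟩
        show h (mp (Finsupp.single g 1)) ≠ 0
        rw [hmp1]
        exact hk
      · exfalso
        apply hk
        have h2 := hh (Finsupp.single k 1)
        rw [hp, hco0 k hk', map_zero, mul_zero, mul_zero] at h2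
        exact norm_le_zero_iff.1 h2
  refine ⟨((C : ℝ) : 𝕜) • ((J p hgood).comp mp), fun x => ?_⟩
  rw [LinearMap.smul_apply, map_smul_eq_mul, RCLike.norm_ofReal, abs_of_pos hC]
  show C * NN (J p hgood (mp x)) = q x
  rw [NN_J, hp, hcomp]
  field_simp

end

end Pool.Agent.H871R2.EL
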