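import Mathlib
import Pool.Agent.H871R2.EL.Embed
import Pool.Agent.H871R2.EL.Abs

set_option autoImplicit false

open Set Cardinal UniformSpace

namespace Pool.Agent.H871R2.EL

section
variable (𝕜 : Type) [RCLike 𝕜]

/-- the universal space -/
def U : Type := Completion (SN (NN : Seminorm 𝕜 (G 𝕜 →₀ 𝕜)))

noncomputable instance : NormedAddCommGroup (U 𝕜) :=
  inferInstanceAs (NormedAddCommGroup (Completion (SN (NN : Seminorm 𝕜 (G 𝕜 →₀ 𝕜)))))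
noncomputable instance : NormedSpace 𝕜 (U 𝕜) :=
  inferInstanceAs (NormedSpace 𝕜 (Completion (SN (NN : Seminorm 𝕜 (G 𝕜 →₀ 𝕜)))))
instance : CompleteSpace (U 𝕜) :=
  inferInstanceAs (CompleteSpace (Completion (SN (NN : Seminorm 𝕜 (G 𝕜 →₀ 𝕜)))))

variable {𝕜}

/-- canonical map -/
noncomputable def emb : (G 𝕜 →₀ 𝕜) →ₗ[𝕜] U 𝕜 :=
  (Completion.toComplₗᵢ (𝕜 := 𝕜) (E := SN (NN : Seminorm 𝕜 (G 𝕜 →₀ 𝕜)))).toLinearMap

theorem norm_emb (x : G 𝕜 →₀ 𝕜) : ‖emb x‖ = NN x :=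
  (Completion.toComplₗᵢ (𝕜 := 𝕜) (E := SN (NN : Seminorm 𝕜 (G 𝕜 →₀ 𝕜)))).norm_map x

theorem dense_emb : DenseRange (emb : (G 𝕜 →₀ 𝕜) →ₗ[𝕜] U 𝕜) :=
  Completion.denseRange_coe (α := SN (NN : Seminorm 𝕜 (G 𝕜 →₀ 𝕜)))

/-- every equivalent renorming of the universal space embeds isometrically into it -/
theorem elastic (N : Seminorm 𝕜 (U 𝕜)) (C : ℝ) (h : ∀ x, N x ≤ C * ‖x‖) :
    ∃ T : U 𝕜 →L[𝕜] U 𝕜, ∀ x, ‖T x‖ = N x := by
  obtain ⟨q, hq0⟩ : ∃ q : Seminorm 𝕜 (G 𝕜 →₀ 𝕜), ∀ x, q x = N (emb x) :=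
    ⟨N.comp (emb (𝕜 := 𝕜)), fun x => rfl⟩
  have hq : ∀ x, q x ≤ max C 1 * NN x := by
    intro x
    have h1 := h (emb x)
    rw [norm_emb] at h1
    rw [hq0]
    exact h1.trans (mul_le_mul_of_nonneg_right (le_max_left _ _) (apply_nonneg _ _))
  obtain ⟨Ψ, hΨ⟩ := exists_embed q (max C 1) (lt_of_lt_of_le one_pos (le_max_right _ _)) hq
  refine ext_lemma (𝕜 := 𝕜) (X := G 𝕜 →₀ 𝕜) (W := U 𝕜) emb dense_emb Ψ N C h fun x => ?_
  rw [norm_emb, hΨ, hq0]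

theorem countable_supp (F : U 𝕜 →L[𝕜] 𝕜) :
    {g : G 𝕜 | F (emb (Finsupp.single g 1)) ≠ 0}.Countable := by
  refine WP_NN (F.toLinearMap.comp emb) ‖F‖ fun x => ?_
  rw [← norm_emb]
  exact F.le_opNorm _

/-- the sup norm on finitely supported vectors is admissible -/
noncomputable def p0 : Seminorm 𝕜 (Kt →₀ 𝕜) :=
  ⨆ k : Kt, (normSeminorm 𝕜 𝕜).comp (Finsupp.lapply k)

theorem p0_bdd (x : Kt →₀ 𝕜) : ∃ B : ℝ, ∀ k, ‖x k‖ ≤ B := by
  refine ⟨∑ k ∈ x.support, ‖x k‖, fun k => ?_⟩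
  by_cases hk : k ∈ x.support
  · exact Finset.single_le_sum (f := fun k => ‖x k‖) (fun _ _ => norm_nonneg _) hk
  · rw [Finsupp.notMem_support_iff.1 hk, norm_zero]
    exact Finset.sum_nonneg fun _ _ => norm_nonneg _

theorem p0_bdd' : BddAbove (range fun k : Kt =>
    (normSeminorm 𝕜 𝕜).comp (Finsupp.lapply k : (Kt →₀ 𝕜) →ₗ[𝕜] 𝕜)) := by
  rw [Seminorm.bddAbove_range_iff]
  intro x
  obtain ⟨B, hB⟩ := p0_bdd x
  refine ⟨B, ?_⟩
  rintro _ ⟨k, rfl⟩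
  exact hB k

instance : Nonempty Kt := ⟨⟨0, (0 : ℝ)⟩⟩

theorem p0_apply (x : Kt →₀ 𝕜) : p0 x = ⨆ k, ‖x k‖ := by
  unfold p0
  rw [Seminorm.iSup_apply p0_bdd']
  rfl

theorem p0_le {x : Kt →₀ 𝕜} {a : ℝ} (h : ∀ k, ‖x k‖ ≤ a) : p0 x ≤ a := by
  rw [p0_apply]
  exact ciSup_le h

theorem le_p0 (x : Kt →₀ 𝕜) (k : Kt) : ‖x k‖ ≤ p0 x := by
  rw [p0_apply]
  obtain ⟨B, hB⟩ := p0_bdd x
  exact le_ciSup (f := fun k => ‖x k‖) ⟨B, by rintro _ ⟨k, rfl⟩; exact hB k⟩ k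

theorem p0_good : Good (p0 : Seminorm 𝕜 (Kt →₀ 𝕜)) where
  proj n x := by
    refine p0_le fun k => ?_
    by_cases hk : k ∈ lev n
    · rw [cut_apply_of_mem _ _ _ hk]; exact le_p0 x k
    · rw [cut_apply_of_notMem _ _ _ hk, norm_zero]; exact apply_nonneg _ _
  unit k := by
    classical
    refine p0_le fun j => ?_
    rw [Finsupp.single_apply]
    split_ifs <;> simp
  wp := by
    classical
    intro f C hf
    refine countable_of_c0 f p0 C hf (fun k => Finsupp.single k 1) fun F c hc => ?_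
    refine p0_le fun j => ?_
    rw [Finsupp.finsetSum_apply]
    by_cases hj : j ∈ F
    · rw [Finset.sum_eq_single j]
      · simp [hc]
      · intro k _ hkj
        simp [hkj]
      · intro h; exact absurd hj h
    · rw [Finset.sum_eq_zero]
      · simp
      · intro k hk
        have : k ≠ j := fun h => hj (h ▸ hk)
        simp [this]

theorem cont_le_dens : 𝔠 ≤ dens (U 𝕜) := by
  classical
  rw [← mk_real]
  refine le_dens_of_sep (X := U 𝕜) (I := ℝ)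
    (fun r => emb (J p0 p0_good (Finsupp.single (⟨0, r⟩ : Kt) (1 : 𝕜)))) ?_
  intro r s hrs
  rw [dist_eq_norm, ← map_sub, ← map_sub, norm_emb, NN_J]
  refine le_trans ?_ (le_p0 _ (⟨0, r⟩ : Kt))
  have h : (⟨0, s⟩ : Kt) ≠ ⟨0, r⟩ := by
    intro h
    exact hrs (eq_of_heq (Sigma.mk.inj h).2).symm
  rw [Finsupp.sub_apply, Finsupp.single_eq_same, Finsupp.single_apply, if_neg h, sub_zero,
    norm_one]

end

end Pool.Agent.H871R2.EL
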